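import Pool.Agent.helper21.OE.SpecB

/-!
# oe:CLU, existence of the class of a character, `ℓ` unramified

Helper file for MP_2e0e07_nt (project oe).
-/

namespace Pool.Agent.OE

section

variable {d t : ℤ}

theorem CLU_norm (z : Oz d t) : z.norm = z.re ^ 2 + t * z.re * z.im + d * z.im ^ 2 := by
  rw [QuadraticAlgebra.norm_def]
  ring

theorem CLU_mul_star (z : Oz d t) : z * star z = ((z.norm : ℤ) : Oz d t) := by
  rw [← QuadraticAlgebra.algebraMap_norm_eq_mul_star]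
  rfl

/-- every element of `ZMod ℓ` is the value of the norm form -/
theorem CLU_rep {ℓ : ℕ} [hfact : Fact ℓ.Prime] (h2 : ℓ ≠ 2)
    (hd : ¬ ((ℓ : ℕ) : ℤ) ∣ t ^ 2 - 4 * d) (m : ZMod ℓ) :
    ∃ y : Oz d t, ((y.norm : ℤ) : ZMod ℓ) = m := by
  have hℓ : ℓ.Prime := hfact.out
  have hD : (4 * d - t ^ 2 : ZMod ℓ) ≠ 0 := by
    intro h
    apply hd
    have h3 : ((t ^ 2 - 4 * d : ℤ) : ZMod ℓ) = 0 := by
      push_cast
      linear_combination -h
    exact (ZMod.intCast_zmod_eq_zero_iff_dvd _ _).1 h3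
  have h20 : (2 : ZMod ℓ) ≠ 0 := by
    intro h
    have h3 : ((2 : ℕ) : ZMod ℓ) = 0 := by
      rw [Nat.cast_ofNat]
      exact h
    have h4 := (ZMod.natCast_eq_zero_iff _ _).1 h3
    exact h2 ((Nat.prime_dvd_prime_iff_eq hℓ Nat.prime_two).1 h4)
  have hf : ((Polynomial.X : Polynomial (ZMod ℓ)) ^ 2).degree = 2 := Polynomial.degree_X_pow 2
  have hg : (Polynomial.C (4 * d - t ^ 2 : ZMod ℓ) * Polynomial.X ^ 2 + Polynomial.C 0 * Polynomial.X
      + Polynomial.C (- 4 * m) : Polynomial (ZMod ℓ)).degree = 2 :=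
    Polynomial.degree_quadratic hD
  have hodd : Fintype.card (ZMod ℓ) % 2 = 1 := by
    rw [ZMod.card]
    rcases hℓ.eq_two_or_odd with h | h
    · exact absurd h h2
    · exact h
  obtain ⟨A, B, hAB⟩ := FiniteField.exists_root_sum_quadratic hf hg hodd
  simp only [Polynomial.eval_pow, Polynomial.eval_X, Polynomial.eval_add, Polynomial.eval_mul,
    Polynomial.eval_C] at hAB
  obtain ⟨y, hy⟩ := ZMod.intCast_surjective B
  obtain ⟨x, hx⟩ := ZMod.intCast_surjective ((A - (t : ZMod ℓ) * B) / 2)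
  have hx2 : 2 * (x : ZMod ℓ) = A - t * B := by
    rw [hx]
    field_simp
  refine ⟨⟨x, y⟩, ?_⟩
  rw [CLU_norm]
  push_cast
  have h4 : (4 : ZMod ℓ) ≠ 0 := by
    have h5 : (4 : ZMod ℓ) = 2 * 2 := by norm_num
    rw [h5]
    exact mul_ne_zero h20 h20
  apply mul_left_cancel₀ h4
  rw [hy]
  linear_combination (2 * (x : ZMod ℓ) + A + t * B) * hx2 + hAB

/-- the norm in characteristic `ℓ` -/
theorem CLU_pi {κ : Type} [Field κ] (π : Oz d t →+* κ) (z : Oz d t) :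
    π (z * star z) = ((z.norm : ℤ) : κ) := by
  rw [CLU_mul_star, map_intCast]

end

theorem CLU (hREQ : REQ_stmt) (hNRF : NRF_stmt) : CLU_stmt := by
  classical
  intro d t hE ℓ hℓ hℓ2 hdisc κ _ π hπ r χ hχ hstar k
  have hCh : CharP κ ℓ := (CharP.charP_iff_prime_eq_zero hℓ).2 hπ
  have hfact : Fact ℓ.Prime := ⟨hℓ⟩
  -- (1)
  have h1 : ∀ x y : Oz d t, ((ℓ : ℕ) : Oz d t) ∣ x - y → χ x = χ y := by
    intro x y h
    have h2 := dvd_sub_pow_of_dvd_sub h r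
    have h3 : χ (x ^ ℓ ^ r) = χ (y ^ ℓ ^ r) := by
      apply hχ
      exact (pow_dvd_pow _ (Nat.le_succ r)).trans h2
    rw [map_pow, map_pow] at h3
    have h4 : (χ x - χ y) ^ ℓ ^ r = 0 := by
      rw [sub_pow_char_pow, h3, sub_self]
    exact sub_eq_zero.1 (pow_eq_zero_iff (pow_ne_zero _ hℓ.ne_zero) |>.1 h4)
  have hne : ∀ x : Oz d t, ¬ ((ℓ : ℕ) : ℤ) ∣ x.norm → χ x ≠ 0 := by
    intro x hx h0
    obtain ⟨x', hx'⟩ := (hREQ d t ℓ hℓ x).1 hx
    have h2 := h1 _ _ hx'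
    rw [map_mul, h0, zero_mul, map_one] at h2
    exact zero_ne_one h2
  -- casts to `ZMod ℓ`
  have hz : ∀ n : ℤ, (n : ZMod ℓ) = 0 ↔ ((ℓ : ℕ) : ℤ) ∣ n := fun n =>
    ZMod.intCast_zmod_eq_zero_iff_dvd n ℓ
  -- (2)
  have h2 : ∀ x : Oz d t, ((x.norm : ℤ) : ZMod ℓ) = 1 → χ x = 1 := by
    intro x hx
    have key : ∀ z : Oz d t, ¬ ((ℓ : ℕ) : ℤ) ∣ (z + x * star z).norm → χ x = 1 := by
      intro z hy
      have h3 : ((ℓ : ℕ) : Oz d t) ∣ x * star (z + x * star z) - (z + x * star z) := by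
        have h4 : x * star (z + x * star z) - (z + x * star z) = (x * star x - 1) * z := by
          rw [star_add, star_mul, star_star]
          ring
        rw [h4, CLU_mul_star]
        apply Dvd.dvd.mul_right
        have h5 : ((ℓ : ℕ) : ℤ) ∣ x.norm - 1 := by
          rw [← hz]
          push_cast
          rw [hx, sub_self]
        obtain ⟨w, hw⟩ := h5
        refine ⟨(w : Oz d t), ?_⟩
        have h6 := congrArg (fun n : ℤ => (n : Oz d t)) hw
        push_cast at h6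
        exact h6
      have h4 := h1 _ _ h3
      rw [map_mul, hstar] at h4
      exact mul_right_cancel₀ (hne _ hy) (h4.trans (one_mul _).symm)
    by_contra hc
    have k1 := not_not.1 (fun h => hc (key 1 h))
    have k2 := not_not.1 (fun h => hc (key ⟨0, 1⟩ h))
    rw [← hz, CLU_norm] at k1 k2
    rw [CLU_norm] at hx
    simp only [QuadraticAlgebra.re_add, QuadraticAlgebra.im_add, QuadraticAlgebra.re_mul,
      QuadraticAlgebra.im_mul, QuadraticAlgebra.re_star, QuadraticAlgebra.im_star,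
      QuadraticAlgebra.re_one, QuadraticAlgebra.im_one] at k1 k2
    push_cast at hx k1 k2
    obtain ⟨a, ha⟩ : ∃ a : ZMod ℓ, a = (x.re : ZMod ℓ) := ⟨_, rfl⟩
    obtain ⟨b, hb⟩ : ∃ b : ZMod ℓ, b = (x.im : ZMod ℓ) := ⟨_, rfl⟩
    obtain ⟨D, hDD⟩ : ∃ D : ZMod ℓ, D = (d : ZMod ℓ) := ⟨_, rfl⟩
    obtain ⟨T, hTT⟩ : ∃ T : ZMod ℓ, T = (t : ZMod ℓ) := ⟨_, rfl⟩
    rw [← ha, ← hb, ← hDD, ← hTT] at hx k1 k2
    have hD : T ^ 2 - 4 * D ≠ 0 := by
      intro h
      apply hdisc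
      rw [← hz]
      push_cast
      rw [← hDD, ← hTT]
      exact h
    have e1 : 2 + 2 * a + T * b = 0 := by linear_combination k1 - hx
    have e2 : 2 * D + a * (T ^ 2 - 2 * D) + T * D * b = 0 := by
      linear_combination k2 - D * hx
    have e3 : a * (T ^ 2 - 4 * D) = 0 := by linear_combination e2 - D * e1
    have e4 : a = 0 := by
      rcases mul_eq_zero.1 e3 with h | h
      · exact h
      · exact absurd h hD
    rw [e4] at e1 hx
    have e5 : (T ^ 2 - 4 * D) * b ^ 2 = 0 := by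
      linear_combination (T * b - 2) * e1 - 4 * hx
    have e6 : b ^ 2 = 0 := by
      rcases mul_eq_zero.1 e5 with h | h
      · exact absurd h hD
      · exact h
    have e7 : b = 0 := pow_eq_zero_iff (two_ne_zero) |>.1 e6
    rw [e7] at hx
    simp at hx
  -- (4)
  obtain ⟨γ, hγ⟩ := IsCyclic.exists_monoid_generator (α := (ZMod ℓ)ˣ)
  obtain ⟨y0, hy0⟩ := CLU_rep hℓ2 hdisc (γ : ZMod ℓ)
  have hord : orderOf γ = ℓ - 1 := by
    rw [← ZMod.card_units ℓ, ← Nat.card_eq_fintype_card]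
    refine orderOf_eq_card_of_forall_mem_zpowers fun x => ?_
    obtain ⟨m, hm⟩ := hγ x
    exact ⟨m, by rw [← hm]; exact zpow_natCast γ m⟩
  have hγ1 : (γ : ZMod ℓ) ^ (ℓ - 1) = 1 := by
    rw [← Units.val_pow_eq_pow_val, ← hord, pow_orderOf_eq_one, Units.val_one]
  set ι := ZMod.castHom (dvd_refl ℓ) κ with hι
  have hιi : Function.Injective ι := ZMod.castHom_injective κ
  have hπι : ∀ z : Oz d t, π (z * star z) = ι ((z.norm : ℤ) : ZMod ℓ) := by
    intro z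
    rw [CLU_pi, map_intCast]
  set u : κ := ι (γ : ZMod ℓ) with hu
  have hprim : IsPrimitiveRoot u (ℓ - 1) := by
    have h3 : orderOf u = ℓ - 1 := by
      rw [hu, ← hord, ← orderOf_units]
      exact orderOf_injective (ι : ZMod ℓ →* κ) hιi (γ : ZMod ℓ)
    rw [← h3]
    exact IsPrimitiveRoot.orderOf u
  have hℓ2' : 2 ≤ ℓ := hℓ.two_le
  have hχ0 : χ y0 ^ (ℓ - 1) = 1 := by
    rw [← map_pow]
    apply h2
    rw [map_pow]
    push_cast
    rw [hy0, hγ1]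
  have hnz : NeZero (ℓ - 1) := ⟨by omega⟩
  obtain ⟨i, _, hi⟩ := hprim.eq_pow_of_pow_eq_one hχ0
  -- (5)
  have h5 : ∀ x : Oz d t, ¬ ((ℓ : ℕ) : ℤ) ∣ x.norm → χ x = π (x * star x) ^ i := by
    intro x hx
    have hx0 : ((x.norm : ℤ) : ZMod ℓ) ≠ 0 := fun h => hx ((hz _).1 h)
    obtain ⟨a, ha⟩ := hγ (Units.mk0 _ hx0)
    have ha' : (γ : ZMod ℓ) ^ a = ((x.norm : ℤ) : ZMod ℓ) := by
      have h := congrArg (fun w : (ZMod ℓ)ˣ => (w : ZMod ℓ)) ha
      simpa using h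
    obtain ⟨m, hm⟩ : ∃ m, ℓ - 1 = m + 1 := ⟨ℓ - 2, by omega⟩
    have h6 : χ (x * y0 ^ (a * m)) = 1 := by
      apply h2
      rw [map_mul, map_pow]
      push_cast
      rw [hy0, ← ha', ← pow_add]
      have h7 : a + a * m = (ℓ - 1) * a := by rw [hm]; ring
      rw [h7, pow_mul, hγ1, one_pow]
    rw [map_mul, map_pow] at h6
    have h7 : χ y0 ^ a * χ y0 ^ (a * m) = 1 := by
      rw [← pow_add]
      have h7 : a + a * m = (ℓ - 1) * a := by rw [hm]; ring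
      rw [h7, pow_mul, hχ0, one_pow]
    have h8 : χ y0 ^ (a * m) ≠ 0 := right_ne_zero_of_mul_eq_one h7
    have h9 : χ x = χ y0 ^ a := mul_right_cancel₀ h8 (h6.trans h7.symm)
    rw [h9, ← hi, hπι, ← ha', map_pow, ← hu]
    ring
  -- (6)
  refine ⟨(i + k + (ℓ - 1) - 1) % (ℓ - 1) + 1, by omega, ?_, ?_⟩
  · have := Nat.mod_lt (i + k + (ℓ - 1) - 1) (show 0 < ℓ - 1 by omega)
    omega
  · intro x hx
    have h6 := ((hNRF d t ℓ hℓ π hπ x).2 hx).1
    rw [h5 x hx, ← pow_add]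
    have h7 : i + k + (ℓ - 1) = (ℓ - 1) * ((i + k + (ℓ - 1) - 1) / (ℓ - 1)) +
        ((i + k + (ℓ - 1) - 1) % (ℓ - 1) + 1) := by
      have h8 := Nat.div_add_mod (i + k + (ℓ - 1) - 1) (ℓ - 1)
      omega
    calc π (x * star x) ^ (i + k) = π (x * star x) ^ (i + k + (ℓ - 1)) := by
          rw [pow_add _ (i + k) (ℓ - 1), h6, mul_one]
      _ = π (x * star x) ^ ((ℓ - 1) * ((i + k + (ℓ - 1) - 1) / (ℓ - 1)) +
        ((i + k + (ℓ - 1) - 1) % (ℓ - 1) + 1)) := by rw [← h7]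
      _ = π (x * star x) ^ ((i + k + (ℓ - 1) - 1) % (ℓ - 1) + 1) := by
          rw [pow_add, pow_mul, h6, one_pow, one_mul]

end Pool.Agent.OE
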